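import Pool.Agent.Helper54.S4.Stmts

/-! Module AG4: signs of all quadruples. -/

set_option autoImplicit false

namespace Pool.Agent.Helper54.S4

open Finset Pool.Agent.Helper54.SP

theorem ag4_sb (b : Bool) : sb (!b) = -sb b := by
  cases b <;> simp [sb]

theorem ag4_perm (hDSW : Pool.Agent.Helper54.SP.ST_DSW) (k n : ℕ) (X : ℕ → ℕ → ℝ)
    (χ : List ℕ → Bool) (hA : Alt k n χ) (l l' : List ℕ) (h : l.Perm l') :
    ∀ s t : List ℕ, (s ++ l ++ t).length = k → (s ++ l ++ t).Nodup →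
      (∀ i ∈ s ++ l ++ t, i < n) →
      sb (χ (s ++ l' ++ t)) * dt k X (s ++ l' ++ t) = sb (χ (s ++ l ++ t)) * dt k X (s ++ l ++ t) := by
  induction h with
  | nil => intro s t _ _ _; rfl
  | @cons x l1 l2 hp ih =>
    intro s t h1 h2 h3
    have e : ∀ m : List ℕ, s ++ x :: m ++ t = (s ++ [x]) ++ m ++ t := by
      intro m
      simp
    rw [e] at h1 h2 h3
    rw [e, e]
    exact ih (s ++ [x]) t h1 h2 h3
  | swap x y l0 =>
    intro s t h1 h2 h3
    have e : ∀ a b : ℕ, s ++ a :: b :: l0 ++ t = s ++ a :: b :: (l0 ++ t) := by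
      intro a b
      simp
    rw [e] at h1 h2 h3
    rw [e, e, hDSW k X s (l0 ++ t) y x h1, hA s (l0 ++ t) y x h1 h2 h3, ag4_sb]
    ring
  | @trans l1 l2 l3 hp1 hp2 ih1 ih2 =>
    intro s t h1 h2 h3
    have hp : (s ++ l1 ++ t).Perm (s ++ l2 ++ t) := (hp1.append_left s).append_right t
    rw [ih2 s t (hp.length_eq ▸ h1) (hp.nodup_iff.mp h2)
      (fun i hi => h3 i (hp.mem_iff.mpr hi)), ih1 s t h1 h2 h3]

theorem st_AG4 (hAL4 : ST_AL4) (hDSW : Pool.Agent.Helper54.SP.ST_DSW) : ST_AG4 := by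
  intro Γ nw x y z hpos l hl hnd hlt
  have hA : Alt 4 (N4 Γ + 1) (ch4 Γ nw) := (hAL4 (c4 Γ nw) (N4 Γ + 1)).1
  obtain ⟨m, hm⟩ : ∃ m : List ℕ, m = l.insertionSort (· ≤ ·) := ⟨_, rfl⟩
  have hp : m.Perm l := by
    rw [hm]
    exact List.perm_insertionSort _ _
  have hs : m.Pairwise (· ≤ ·) := by
    rw [hm]
    exact List.pairwise_insertionSort _ _
  have hml : m.length = 4 := hp.length_eq.trans hl
  have hmn : m.Nodup := hp.nodup_iff.mpr hnd
  have hmlt : ∀ i ∈ m, i < N4 Γ + 1 := fun i hi => hlt i (hp.mem_iff.mp hi)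
  have key := ag4_perm hDSW 4 (N4 Γ + 1) (qv (N4 Γ) x y z) (ch4 Γ nw) hA m l hp [] []
    (by simpa using hml) (by simpa using hmn) (by simpa using hmlt)
  simp only [List.nil_append, List.append_nil] at key
  rw [key]
  clear key hm hp
  match m, hml, hs, hmn, hmlt with
  | [a, b, c, d], _, hs, hmn, hmlt =>
    simp only [List.pairwise_cons, List.mem_cons, List.not_mem_nil, or_false] at hs
    simp only [List.nodup_cons, List.mem_cons, List.not_mem_nil, or_false, not_or] at hmn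
    have hab : a < b := lt_of_le_of_ne (hs.1 b (Or.inl rfl)) hmn.1.1
    have hbc : b < c := lt_of_le_of_ne (hs.2.1 c (Or.inl rfl)) hmn.2.1.1
    have hcd : c < d := lt_of_le_of_ne (hs.2.2.1 d rfl) hmn.2.2.1
    have hd : d < N4 Γ + 1 := hmlt d (by simp)
    have hch : ch4 Γ nw [a, b, c, d] = c4 Γ nw a b c d :=
      (hAL4 (c4 Γ nw) (N4 Γ + 1)).2.1 a b c d hab hbc hcd
    rw [hch]
    exact hpos a b c d hab hbc hcd (by omega)

end Pool.Agent.Helper54.S4
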